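import Pool.Graph.R_seed8.Y311.CX.Good

/-!
# Weakly mixing directions: control of the averages against all invariant weights
-/

set_option autoImplicit false
set_option linter.unusedSectionVars false

open Filter Topology MeasureTheory ProbabilityTheory

noncomputable section

namespace Pool.Agent.Helper34.WM

open Pool.Agent.Y311.UB Pool.Agent.Y311.CX Pool.Agent.W761.Box

variable {ι : Type} {k : ℕ} {G : Type} [AddCommGroup G]

variable {X : Type} [MeasurableSpace X] {μ : Measure X} [IsProbabilityMeasure μ]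
  {Φ : G → Equiv.Perm X}

/-- the action of the multiples of `g` -/
theorem act_el (h : Act μ Φ) (g : G) : Act μ fun n : ℤ => Φ (n • g) := by
  refine ⟨fun a b => ?_, ?_, fun a => h.mp _⟩
  · rw [add_smul, h.add]
  · rw [zero_smul, h.zero]

theorem wm_double_el (h : Act μ Φ) {g : G} (hwm : Ergodic (Prod.map (Φ g) (Φ g)) (μ.prod μ))
    {F : X → ℝ} (hF : BMr F) {η : ℝ} (hη : 0 < η) : ∀ᶠ S : ℕ in atTop,
      (S : ℝ)⁻¹ ^ 2 * ∑ s ∈ Finset.range S, ∑ s' ∈ Finset.range S,
        |∫ x, F (Φ (s • g) x) * F (Φ (s' • g) x) ∂μ| ≤ (∫ x, F x ∂μ) ^ 2 + η := by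
  have h1 := wm_double (Φ := fun n : ℤ => Φ (n • g)) (act_el h g) (by
    simpa only [one_smul] using hwm) hF (w := 1) one_ne_zero hη
  have h2 : ∀ s : ℕ, (s • (1 : ℤ)) • g = s • g := fun s => by
    rw [nsmul_eq_mul, mul_one, natCast_zsmul]
  simpa only [h2] using h1

/-- **Weakly mixing directions**: control by the integral. -/
theorem ctl_wmG (h : Act μ Φ) {L : (Fin k → ℤ) →+ G} {v : ι → Fin k → ℤ} :
    ∀ (l : List ι), l ≠ [] →
    (∀ i ∈ l, Ergodic (Prod.map (Φ (L (v i))) (Φ (L (v i)))) (μ.prod μ)) →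
    ∀ {F : X → ℝ}, Measurable F → (∀ x, |F x| ≤ 1) →
    ∀ η : ℝ, 0 < η → ∃ R : X → ℝ, Measurable R ∧ (∀ x, 0 ≤ R x ∧ R x ≤ 1) ∧
      Ctl μ Φ L v l F R ∧ ∫ x, R x ^ (2 ^ l.length) ∂μ ≤ |∫ x, F x ∂μ| + η := by
  have hone : ∀ {F : X → ℝ}, (∀ x, |F x| ≤ 1) → |∫ x, F x ∂μ| ≤ 1 := by
    intro F hF1
    have := norm_integral_le_of_norm_le_const (μ := μ) (f := F) (C := 1)
      (Eventually.of_forall hF1)
    simpa using this
  have hsq : ∀ {F : X → ℝ}, (∀ x, |F x| ≤ 1) → (∫ x, F x ∂μ) ^ 2 ≤ |∫ x, F x ∂μ| := by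
    intro F hF1
    rw [← sq_abs, sq]
    exact mul_le_of_le_one_left (abs_nonneg _) (hone hF1)
  intro l
  induction l with
  | nil => intro hl; exact absurd rfl hl
  | cons i l ih =>
    intro _ hL F hF hF1 η hη
    have hFB : BMr F := ⟨hF, 1, hF1⟩
    have hw := hL i (by simp)
    rcases eq_or_ne l [] with hl | hl
    · subst hl
      obtain ⟨S, hS1, hS0⟩ := ((wm_double_el h hw hFB hη).and (eventually_gt_atTop 0)).exists
      obtain ⟨R, hRm, hR01, hRc, hRi⟩ := ctl_one h L v i hF hF1 hS0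
      refine ⟨R, hRm, hR01, hRc, ?_⟩
      have h3 : ∫ x, ((S : ℝ)⁻¹ * ∑ s ∈ Finset.range S, F (Φ (s • L (v i)) x)) ^ 2 ∂μ =
          (S : ℝ)⁻¹ ^ 2 * ∑ s ∈ Finset.range S, ∑ s' ∈ Finset.range S,
            ∫ x, F (Φ (s • L (v i)) x) * F (Φ (s' • L (v i)) x) ∂μ := by
        have e1 : (fun x => ((S : ℝ)⁻¹ * ∑ s ∈ Finset.range S, F (Φ (s • L (v i)) x)) ^ 2) =
            fun x => (S : ℝ)⁻¹ ^ 2 * ∑ s ∈ Finset.range S, ∑ s' ∈ Finset.range S,
            F (Φ (s • L (v i)) x) * F (Φ (s' • L (v i)) x) := by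
          funext x
          rw [mul_pow, sq (∑ s ∈ Finset.range S, F (Φ (s • L (v i)) x)), Finset.sum_mul_sum]
        rw [e1, integral_const_mul, integral_finsetSum]
        · congr 1
          refine Finset.sum_congr rfl fun s _ => ?_
          rw [integral_finsetSum]
          intro s' _
          exact ((hFB.comp (h.measurable _)).mul (hFB.comp (h.measurable _))).integrable
        · intro s _
          refine integrable_finsetSum _ fun s' _ => ?_
          exact ((hFB.comp (h.measurable _)).mul (hFB.comp (h.measurable _))).integrable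
      have h4 : ∫ x, R x ^ (2 ^ [i].length) ∂μ = ∫ x, R x ^ 2 ∂μ := by simp
      rw [h4]
      refine hRi.trans ?_
      rw [h3]
      refine le_trans ?_ (hS1.trans (add_le_add (hsq hF1) le_rfl))
      refine mul_le_mul_of_nonneg_left (Finset.sum_le_sum fun s _ => Finset.sum_le_sum fun s' _ =>
        le_abs_self _) (by positivity)
    · obtain ⟨S, hS1, hS0⟩ := ((wm_double_el h hw hFB (η := η / 2) (by positivity)).and
        (eventually_gt_atTop 0)).exists
      have h5 : ∀ s s' : ℕ, ∃ R : X → ℝ, Measurable R ∧ (∀ x, 0 ≤ R x ∧ R x ≤ 1) ∧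
          Ctl μ Φ L v l (fun x => F (Φ (s • L (v i)) x) * F (Φ (s' • L (v i)) x)) R ∧
          ∫ x, R x ^ (2 ^ l.length) ∂μ ≤
            |∫ x, F (Φ (s • L (v i)) x) * F (Φ (s' • L (v i)) x) ∂μ| + η / 2 := by
        intro s s'
        refine ih hl (fun j hj => hL j (List.mem_cons_of_mem _ hj)) ?_ (fun x => ?_) _
          (by positivity)
        · exact (hF.comp (h.measurable _)).mul (hF.comp (h.measurable _))
        · rw [abs_mul]
          exact mul_le_one₀ (hF1 _) (abs_nonneg _) (hF1 _)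
      choose R hRm hR01 hRc hRi using h5
      obtain ⟨R', hR'm, hR'01, hR'c, hR'i⟩ := ctl_step h L v i l hF1 hS0 hRm hR01
        (fun s _ s' _ => hRc s s')
      refine ⟨R', hR'm, hR'01, hR'c, ?_⟩
      rw [List.length_cons]
      refine hR'i.trans ?_
      have hSpos : (0 : ℝ) < S := by exact_mod_cast hS0
      have h6 : (S : ℝ)⁻¹ ^ 2 * ∑ s ∈ Finset.range S, ∑ s' ∈ Finset.range S,
          ∫ x, R s s' x ^ (2 ^ l.length) ∂μ ≤ (S : ℝ)⁻¹ ^ 2 * ∑ s ∈ Finset.range S,
          ∑ s' ∈ Finset.range S,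
            (|∫ x, F (Φ (s • L (v i)) x) * F (Φ (s' • L (v i)) x) ∂μ| + η / 2) :=
        mul_le_mul_of_nonneg_left (Finset.sum_le_sum fun s _ => Finset.sum_le_sum fun s' _ =>
          hRi s s') (by positivity)
      refine h6.trans ?_
      rw [dsum_add hS0 (fun s s' => |∫ x, F (Φ (s • L (v i)) x) * F (Φ (s' • L (v i)) x) ∂μ|)]
      have := hsq hF1
      linarith

/-- real functions, real weights -/
theorem wm_real (h : Act μ Φ) {L : (Fin k → ℤ) →+ G} {s : ℕ} (hs : 0 < s)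
    {v : Fin s → Fin k → ℤ}
    (hv : ∀ i, Ergodic (Prod.map (Φ (L (v i))) (Φ (L (v i)))) (μ.prod μ)) {f : X → ℝ}
    (hf : BMr f) :
    ∀ᵐ x ∂μ, ∀ b : Fin s → (Fin k → ℤ) → ℝ, (∀ i m, |b i m| ≤ 1) →
      (∀ i m, b i (m + v i) = b i m) →
      Tendsto (fun N => bz N fun m => (f (Φ (L m) x) - ∫ y, f y ∂μ) * ∏ i, b i m) atTop (𝓝 0) := by
  obtain ⟨hfm, C, hC⟩ := hf
  set c : ℝ := ∫ x, f x ∂μ with hc
  set D : ℝ := |C| + |c| + 1 with hD
  have hDpos : 0 < D := by positivity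
  set u : X → ℝ := fun x => D⁻¹ * (f x - c) with hu
  have hum : Measurable u := (hfm.sub_const c).const_mul _
  have hu1 : ∀ x, |u x| ≤ 1 := by
    intro x
    rw [hu]
    simp only
    rw [abs_mul, abs_of_pos (inv_pos.2 hDpos), inv_mul_le_iff₀ hDpos, mul_one]
    have h1 := abs_sub (f x) c
    have h2 := (hC x).trans (le_abs_self _)
    linarith
  have hfi : Integrable f μ := (BMr.integrable ⟨hfm, C, hC⟩)
  have hu0 : ∫ x, u x ∂μ = 0 := by
    rw [hu, integral_const_mul, integral_sub hfi (integrable_const _)]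
    simp [hc]
  have hne : List.finRange s ≠ [] := by
    intro h0
    have := List.mem_finRange (⟨0, hs⟩ : Fin s)
    rw [h0] at this
    exact List.not_mem_nil this
  have hctl : Ctl μ Φ L v (List.finRange s) u fun _ => 0 := by
    refine ctl_zero (p := 2 ^ (List.finRange s).length) fun η hη => ?_
    obtain ⟨R, hRm, hR01, hRc, hRi⟩ := ctl_wmG h (List.finRange s) hne (fun i _ => hv i) hum
      hu1 η hη
    refine ⟨R, hRm, hR01, hRc, hRi.trans ?_⟩
    rw [hu0]
    simp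
  filter_upwards [hctl] with x hx1 b hb hbi
  have h2 := hx1 b hb (fun i _ m => hbi i m)
  have h20 : Tendsto (fun N => bz N fun m => u (Φ (L m) x) * ((List.finRange s).map
      fun i => b i m).prod) atTop (𝓝 0) := by
    rw [Metric.tendsto_nhds]
    intro ε hε
    filter_upwards [h2 (ε / 2) (by positivity)] with N hN
    rw [dist_zero_right, Real.norm_eq_abs]
    linarith
  have h3 := h20.const_mul D
  rw [mul_zero] at h3
  refine h3.congr fun N => ?_
  rw [← bz_mul]
  congr 1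
  funext m
  rw [Fin.prod_univ_def, hu]
  simp only
  field_simp

/-- **Weakly mixing directions**: for almost every point all invariant weights are good. -/
theorem wm_weights (h : Act μ Φ) {L : (Fin k → ℤ) →+ G} {s : ℕ} (hs : 0 < s)
    {v : Fin s → Fin k → ℤ}
    (hv : ∀ i, Ergodic (Prod.map (Φ (L (v i))) (Φ (L (v i)))) (μ.prod μ)) {f : X → ℂ}
    (hfm : Measurable f) {C : ℝ} (hC : ∀ x, ‖f x‖ ≤ C) :
    ∀ᵐ x ∂μ, ∀ b : Fin s → (Fin k → ℤ) → ℂ, (∀ i m, ‖b i m‖ ≤ 1) →
      (∀ i m, b i (m + v i) = b i m) →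
      Tendsto (fun N => bzc N fun m => (f (Φ (L m) x) - ∫ y, f y ∂μ) * ∏ i, b i m) atTop
        (𝓝 0) := by
  have hre : BMr fun x => (f x).re :=
    ⟨Complex.measurable_re.comp hfm, C, fun x => (Complex.abs_re_le_norm _).trans (hC x)⟩
  have him : BMr fun x => (f x).im :=
    ⟨Complex.measurable_im.comp hfm, C, fun x => (Complex.abs_im_le_norm _).trans (hC x)⟩
  have hfi : Integrable f μ := Integrable.of_bound hfm.aestronglyMeasurable C
    (Eventually.of_forall hC)
  have hI : ∫ y, f y ∂μ = ((∫ y, (f y).re ∂μ : ℝ) : ℂ) + ((∫ y, (f y).im ∂μ : ℝ) : ℂ) * Complex.I := by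
    exact (integral_re_add_im hfi).symm
  filter_upwards [wm_real h hs hv hre, wm_real h hs hv him] with x h1 h2 b hb hbi
  have e1 := cplx_of_real (A := fun m => (f (Φ (L m) x)).re - ∫ y, (f y).re ∂μ)
    (fun b hb hbi => h1 b hb hbi) b hb hbi
  have e2 := cplx_of_real (A := fun m => (f (Φ (L m) x)).im - ∫ y, (f y).im ∂μ)
    (fun b hb hbi => h2 b hb hbi) b hb hbi
  have e3 := e1.add (e2.const_mul Complex.I)
  rw [mul_zero, add_zero] at e3
  refine e3.congr fun N => ?_
  rw [← bzc_mul]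
  unfold bzc
  rw [← bxc_add]
  congr 1
  funext m
  rw [hI]
  beta_reduce
  conv_rhs => rw [← Complex.re_add_im (f (Φ (L (cz m)) x))]
  push_cast
  ring

/-- the same for bounded weights with an arbitrary finite set of indices -/
theorem wm_weights' (h : Act μ Φ) {L : (Fin k → ℤ) →+ G} {κ : Type} [Fintype κ] [Nonempty κ]
    {v : κ → Fin k → ℤ}
    (hv : ∀ i, Ergodic (Prod.map (Φ (L (v i))) (Φ (L (v i)))) (μ.prod μ)) {f : X → ℂ}
    (hfm : Measurable f) {C : ℝ} (hC : ∀ x, ‖f x‖ ≤ C) :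
    ∀ᵐ x ∂μ, ∀ b : κ → (Fin k → ℤ) → ℂ, (∃ D : ℝ, ∀ i m, ‖b i m‖ ≤ D) →
      (∀ i m, b i (m + v i) = b i m) →
      Tendsto (fun N => bzc N fun m => (f (Φ (L m) x) - ∫ y, f y ∂μ) * ∏ i, b i m) atTop
        (𝓝 0) := by
  let e := Fintype.equivFin κ
  filter_upwards [wm_weights h (s := Fintype.card κ) Fintype.card_pos (v := fun i => v (e.symm i))
    (fun i => hv _) hfm hC] with x hx b hb hbi
  obtain ⟨D, hD⟩ := hb
  set D' : ℝ := max D 1 with hD'
  have hD1 : (1 : ℝ) ≤ D' := le_max_right _ _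
  have hD0 : (D' : ℂ) ≠ 0 := by
    have : (D' : ℝ) ≠ 0 := by linarith
    exact_mod_cast this
  have h1 := hx (fun i m => (D' : ℂ)⁻¹ * b (e.symm i) m) (fun i m => by
    rw [norm_mul, norm_inv, Complex.norm_real, Real.norm_eq_abs, abs_of_pos (by linarith),
      inv_mul_le_iff₀ (by linarith), mul_one]
    exact (hD _ _).trans (le_max_left _ _)) (fun i m => by rw [hbi])
  have h2 := h1.const_mul ((D' : ℂ) ^ Fintype.card κ)
  rw [mul_zero] at h2
  refine h2.congr fun N => ?_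
  rw [← bzc_mul]
  congr 1
  funext m
  rw [Finset.prod_mul_distrib, Finset.prod_const, Finset.card_univ, Fintype.card_fin,
    Equiv.prod_comp e.symm fun i => b i m]
  have h3 : (D' : ℂ) ^ Fintype.card κ * ((D' : ℂ)⁻¹) ^ Fintype.card κ = 1 := by
    rw [← mul_pow, mul_inv_cancel₀ hD0, one_pow]
  linear_combination ((f (Φ (L m) x) - ∫ y, f y ∂μ) * ∏ i, b i m) * h3

end Pool.Agent.Helper34.WM
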