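import Pool.Agent.Helper34.WM.Ctl
import Pool.Agent.Helper34.FB.Final

/-!
# Weakly mixing slots
-/

set_option autoImplicit false
set_option linter.unusedSectionVars false

open Filter Topology MeasureTheory ProbabilityTheory
open scoped ENNReal Matrix

noncomputable section

namespace Pool.Agent.Helper34.WM

open Pool.Agent.Y311.UB Pool.Agent.Y311.CX Pool.Agent.W761.Box
open Pool.Agent.Helper34.FB (pw Simple simple_conv)

variable {X : Type} [MeasurableSpace X] {μ : Measure X} [IsProbabilityMeasure μ]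

/-- `T` is weakly mixing -/
def Wm (μ : Measure X) (T : Equiv.Perm X) : Prop := Ergodic (Prod.map T T) (μ.prod μ)

theorem slots {k d' s : ℕ} {J : Type} [Fintype J] {S : J → (Fin k → ℤ) → X → X}
    (hS : ∀ j m, MeasurePreserving (S j m) μ μ) {U : Fin s → Fin d' → Equiv.Perm X}
    (hUm : ∀ i l, Measurable (U i l).symm) (hU : ∀ i l, MeasurePreserving (U i l) μ μ)
    (hUc : ∀ i l l', Commute (U i l) (U i l')) (A : Fin s → Matrix (Fin d') (Fin k) ℤ)
    (c : Fin s → Fin d' → ℤ)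
    (h1 : ∀ i, ∃ v : Fin k → ℤ, Wm μ (pw (U i) (A i *ᵥ v)))
    (h2 : ∀ i j, ∃ v : Fin k → ℤ, (∀ m, S j (m + v) = S j m) ∧ Wm μ (pw (U i) (A i *ᵥ v)))
    (h3 : ∀ i i', i' ≠ i → ∃ v : Fin k → ℤ, A i' *ᵥ v = 0 ∧ Wm μ (pw (U i) (A i *ᵥ v)))
    {f : J → X → ℂ} (hf : ∀ j, MemLp (f j) ∞ μ) {g : Fin s → X → ℂ}
    (hg : ∀ i, MemLp (g i) ∞ μ) :
    ∀ᵐ x ∂μ, Tendsto (fun M : Fin k → ℕ => (∏ l, (M l : ℂ))⁻¹ *
      ∑ m ∈ Fintype.piFinset (fun l => Finset.Icc 1 (M l)),
        ((∏ j, f j (S j (fun l => ((m l : ℕ) : ℤ)) x)) *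
          (∏ i, g i (pw (U i) (A i *ᵥ (fun l => ((m l : ℕ) : ℤ)) + c i) x)) -
        (∏ i, ∫ y, g i y ∂μ) * ∏ j, f j (S j (fun l => ((m l : ℕ) : ℤ)) x))) atTop (𝓝 0) := by
  classical
  have h3' : ∀ i i', ∃ v : Fin k → ℤ, (i' ≠ i → A i' *ᵥ v = 0) ∧ Wm μ (pw (U i) (A i *ᵥ v)) := by
    intro i i'
    by_cases h : i' = i
    · obtain ⟨v, hv⟩ := h1 i
      exact ⟨v, fun h' => absurd h h', hv⟩
    · obtain ⟨v, hv, hv'⟩ := h3 i i' h
      exact ⟨v, fun _ => hv, hv'⟩
  choose v2 hv2 hv2w using h2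
  choose v3 hv3 hv3w using h3'
  choose g' hg' hgg' using fun i => Pool.Agent.Q96.KP.BM_of_memLp' (hg i)
  have hact : ∀ i, Act μ (pw (U i)) := fun i => act_prod (hUm i) (hU i) (hUc i)
  have hg'2 := hg'
  choose hgm Cg hCg using hg'2
  set I : Fin s → ℂ := fun i => ∫ y, g' i y ∂μ with hI
  have hIg : ∀ i, ∫ y, g i y ∂μ = I i := fun i => integral_congr_ae (hgg' i)
  -- the weights theorem for each slot
  have hw : ∀ t : Fin s, ∀ᵐ x ∂μ, ∀ b : J ⊕ Fin s → (Fin k → ℤ) → ℂ,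
      (∃ D : ℝ, ∀ i m, ‖b i m‖ ≤ D) → (∀ i m, b i (m + Sum.elim (v2 t) (v3 t) i) = b i m) →
      Tendsto (fun N => bzc N fun m => (g' t (pw (U t) (A t *ᵥ m + c t) x) - I t) *
        ∏ i, b i m) atTop (𝓝 0) := by
    intro t
    have : Nonempty (J ⊕ Fin s) := ⟨Sum.inr t⟩
    have h := wm_weights' (hact t) (L := (A t).mulVecLin.toAddMonoidHom)
      (v := Sum.elim (v2 t) (v3 t)) (by
        rintro (j | i)
        · exact hv2w t j
        · exact hv3w t i)
      (f := fun x => g' t (pw (U t) (c t) x)) ((hgm t).comp ((hact t).measurable _))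
      (C := Cg t) (fun x => hCg t _)
    have hint : ∫ y, g' t (pw (U t) (c t) y) ∂μ = I t := by
      have h4 := integral_map (μ := μ) ((hact t).measurable (c t)).aemeasurable (f := g' t) (by
        rw [((hact t).mp (c t)).map_eq]
        exact (hgm t).aestronglyMeasurable)
      rw [((hact t).mp (c t)).map_eq] at h4
      exact h4.symm
    filter_upwards [h] with x hx b hb hbi
    refine (hx b hb hbi).congr fun N => ?_
    congr 1
    funext m
    rw [hint, add_comm (A t *ᵥ m) (c t), (hact t).add_apply]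
    rfl
  have hw' := ae_all_iff.2 hw
  -- bounds for the other functions
  have hfb : ∀ᵐ x ∂μ, ∀ j m, ‖f j (S j m x)‖ ≤ (eLpNormEssSup (f j) μ).toReal := by
    rw [ae_all_iff]
    intro j
    rw [ae_all_iff]
    intro m
    refine (hS j m).quasiMeasurePreserving.ae (p := fun x => ‖f j x‖ ≤
      (eLpNormEssSup (f j) μ).toReal) ?_
    have hfb := (hf j).2
    rw [eLpNorm_exponent_top] at hfb
    filter_upwards [ae_le_eLpNormEssSup (f := f j) (μ := μ)] with x hx
    have := ENNReal.toReal_mono hfb.ne hx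
    simpa using this
  have hgae : ∀ᵐ x ∂μ, ∀ i (z : Fin d' → ℤ), g i (pw (U i) z x) = g' i (pw (U i) z x) := by
    rw [ae_all_iff]
    intro i
    rw [ae_all_iff]
    intro z
    exact ((hact i).mp z).quasiMeasurePreserving.ae (hgg' i)
  filter_upwards [hw', hfb, hgae] with x hx hxf hxg
  set Gf : Fin s → (Fin k → ℤ) → ℂ := fun i m => g' i (pw (U i) (A i *ᵥ m + c i) x) with hGf
  let h : Finset (Fin s) → Fin s → (Fin k → ℤ) → ℂ := fun 𝒜 i m => if i ∈ 𝒜 then I i else Gf i m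
  let P : Finset (Fin s) → (Fin k → ℤ) → ℂ := fun 𝒜 m => (∏ j, f j (S j m x)) * ∏ i, h 𝒜 i m
  set D : ℝ := ∑ j, (eLpNormEssSup (f j) μ).toReal + ∑ i, |Cg i| + ∑ i, ‖I i‖ + 1 with hD
  have hDf : ∀ j m, ‖f j (S j m x)‖ ≤ D := by
    intro j m
    have e1 := Finset.single_le_sum (f := fun j => (eLpNormEssSup (f j) μ).toReal)
      (fun _ _ => ENNReal.toReal_nonneg) (Finset.mem_univ j)
    have e2 : 0 ≤ ∑ i, |Cg i| := Finset.sum_nonneg fun _ _ => abs_nonneg _
    have e3 : 0 ≤ ∑ i, ‖I i‖ := Finset.sum_nonneg fun _ _ => norm_nonneg _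
    have e4 := hxf j m
    linarith
  have hs0 : 0 ≤ ∑ j, (eLpNormEssSup (f j) μ).toReal :=
    Finset.sum_nonneg fun _ _ => ENNReal.toReal_nonneg
  have hDG : ∀ i m, ‖Gf i m‖ ≤ D := by
    intro i m
    have e1 := Finset.single_le_sum (f := fun i => |Cg i|) (fun _ _ => abs_nonneg _)
      (Finset.mem_univ i)
    have e3 : 0 ≤ ∑ i, ‖I i‖ := Finset.sum_nonneg fun _ _ => norm_nonneg _
    have e4 : ‖Gf i m‖ ≤ |Cg i| := (hCg i _).trans (le_abs_self _)
    linarith
  have hDI : ∀ i, ‖I i‖ ≤ D := by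
    intro i
    have e1 := Finset.single_le_sum (f := fun i => ‖I i‖) (fun _ _ => norm_nonneg _)
      (Finset.mem_univ i)
    have e2 : 0 ≤ ∑ i, |Cg i| := Finset.sum_nonneg fun _ _ => abs_nonneg _
    linarith
  have hD1 : 1 ≤ D := by
    have e2 : 0 ≤ ∑ i, |Cg i| := Finset.sum_nonneg fun _ _ => abs_nonneg _
    have e3 : 0 ≤ ∑ i, ‖I i‖ := Finset.sum_nonneg fun _ _ => norm_nonneg _
    linarith
  have hDh : ∀ 𝒜 i m, ‖h 𝒜 i m‖ ≤ D := by
    intro 𝒜 i m
    show ‖if i ∈ 𝒜 then I i else Gf i m‖ ≤ D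
    split_ifs
    · exact hDI i
    · exact hDG i m
  -- one slot
  have hone : ∀ (t : Fin s) (𝒜 : Finset (Fin s)), t ∉ 𝒜 →
      Tendsto (fun N => bzc N fun m => P 𝒜 m - P (insert t 𝒜) m) atTop (𝓝 0) := by
    intro t 𝒜 ht
    have e1 := hx t (Sum.elim (fun j m => f j (S j m x)) (fun i m => if i = t then 1 else h 𝒜 i m))
      ⟨D, by
        rintro (j | i) m
        · exact hDf j m
        · show ‖if i = t then (1 : ℂ) else h 𝒜 i m‖ ≤ D
          split_ifs
          · simpa using hD1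
          · exact hDh 𝒜 i m⟩ (by
        rintro (j | i) m
        · show f j (S j (m + v2 t j) x) = f j (S j m x)
          rw [hv2 t j m]
        · show (if i = t then (1 : ℂ) else h 𝒜 i (m + v3 t i)) = if i = t then 1 else h 𝒜 i m
          split_ifs with hit
          · rfl
          · show (if i ∈ 𝒜 then I i else Gf i (m + v3 t i)) = if i ∈ 𝒜 then I i else Gf i m
            split_ifs
            · rfl
            · simp only [hGf]
              rw [Matrix.mulVec_add, hv3 t i hit, add_zero])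
    refine e1.congr fun N => ?_
    congr 1
    funext m
    have e2 : ∏ i, h 𝒜 i m = Gf t m * ∏ i, (if i = t then (1 : ℂ) else h 𝒜 i m) := by
      rw [← Finset.mul_prod_erase _ _ (Finset.mem_univ t),
        ← Finset.mul_prod_erase _ (fun i => if i = t then (1 : ℂ) else h 𝒜 i m)
          (Finset.mem_univ t), if_pos rfl, one_mul]
      congr 1
      · show (if t ∈ 𝒜 then I t else Gf t m) = Gf t m
        rw [if_neg ht]
      · refine Finset.prod_congr rfl fun i hi => ?_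
        rw [if_neg (Finset.ne_of_mem_erase hi)]
    have e3 : ∏ i, h (insert t 𝒜) i m = I t * ∏ i, (if i = t then (1 : ℂ) else h 𝒜 i m) := by
      rw [← Finset.mul_prod_erase _ _ (Finset.mem_univ t),
        ← Finset.mul_prod_erase _ (fun i => if i = t then (1 : ℂ) else h 𝒜 i m)
          (Finset.mem_univ t), if_pos rfl, one_mul]
      congr 1
      · show (if t ∈ insert t 𝒜 then I t else Gf t m) = I t
        rw [if_pos (Finset.mem_insert_self _ _)]
      · refine Finset.prod_congr rfl fun i hi => ?_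
        have hit := Finset.ne_of_mem_erase hi
        rw [if_neg hit]
        show (if i ∈ insert t 𝒜 then I i else Gf i m) = if i ∈ 𝒜 then I i else Gf i m
        simp only [Finset.mem_insert, hit, false_or]
    show (Gf t m - I t) * ∏ i, _ = (∏ j, f j (S j m x)) * ∏ i, h 𝒜 i m -
      (∏ j, f j (S j m x)) * ∏ i, h (insert t 𝒜) i m
    rw [e2, e3, Fintype.prod_sum_type]
    simp only [Sum.elim_inl, Sum.elim_inr]
    ring
  have hall : ∀ 𝒜 : Finset (Fin s),
      Tendsto (fun N => bzc N fun m => P ∅ m - P 𝒜 m) atTop (𝓝 0) := by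
    intro 𝒜
    induction 𝒜 using Finset.induction_on with
    | empty =>
      have e : ∀ N : Fin k → ℕ, (bzc N fun m => P ∅ m - P ∅ m) = 0 := by
        intro N
        unfold bzc
        rw [bxc_sub, sub_self]
      simp only [e]
      exact tendsto_const_nhds
    | insert t 𝒜 ht ih =>
      have e1 := ih.add (hone t 𝒜 ht)
      rw [add_zero] at e1
      refine e1.congr fun N => ?_
      unfold bzc
      rw [← bxc_add]
      congr 1
      funext m
      ring
  have hfin := hall Finset.univ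
  -- bounded arrays
  have hPb : ∀ 𝒜 m, ‖P 𝒜 m‖ ≤ D ^ Fintype.card J * D ^ s := by
    intro 𝒜 m
    show ‖(∏ j, f j (S j m x)) * ∏ i, h 𝒜 i m‖ ≤ _
    rw [norm_mul, norm_prod, norm_prod]
    refine mul_le_mul ?_ ?_ (Finset.prod_nonneg fun _ _ => norm_nonneg _) (by positivity)
    · rw [Fintype.card, ← Finset.prod_const]
      exact Finset.prod_le_prod (fun _ _ => norm_nonneg _) fun j _ => hDf j m
    · have e : D ^ s = ∏ _i : Fin s, D := by
        rw [Finset.prod_const, Finset.card_univ, Fintype.card_fin]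
      rw [e]
      exact Finset.prod_le_prod (fun _ _ => norm_nonneg _) fun i _ => hDh 𝒜 i m
  have hb : ∀ m : Fin k → ℕ, ‖P ∅ (cz m) - P Finset.univ (cz m)‖ ≤
      D ^ Fintype.card J * D ^ s + D ^ Fintype.card J * D ^ s := fun m =>
    (norm_sub_le _ _).trans (add_le_add (hPb _ _) (hPb _ _))
  refine (Pool.Agent.Q96.KP.lim_of_bxc hb hfin).congr fun M => ?_
  unfold Pool.Agent.Q96.KP.av1
  congr 1
  refine Finset.sum_congr rfl fun m _ => ?_
  have e1 : P ∅ (cz m) = (∏ j, f j (S j (fun l => ((m l : ℕ) : ℤ)) x)) *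
      ∏ i, g i (pw (U i) (A i *ᵥ (fun l => ((m l : ℕ) : ℤ)) + c i) x) := by
    show (∏ j, f j (S j (cz m) x)) * ∏ i, (if i ∈ (∅ : Finset (Fin s)) then I i else Gf i (cz m)) = _
    congr 1
    refine Finset.prod_congr rfl fun i _ => ?_
    rw [if_neg (Finset.notMem_empty i)]
    exact (hxg i _).symm
  have e2 : P Finset.univ (cz m) = (∏ i, ∫ y, g i y ∂μ) *
      ∏ j, f j (S j (fun l => ((m l : ℕ) : ℤ)) x) := by
    show (∏ j, f j (S j (cz m) x)) * ∏ i, (if i ∈ (Finset.univ : Finset (Fin s)) then I i else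
      Gf i (cz m)) = _
    rw [mul_comm]
    congr 1
    refine Finset.prod_congr rfl fun i _ => ?_
    rw [if_pos (Finset.mem_univ i), hIg]
  show P ∅ (cz m) - P Finset.univ (cz m) = _
  rw [e1, e2]

/-- **Simple directions and weakly mixing slots.** -/
theorem simple_slots {d k n d' s : ℕ} {T : Fin d → Equiv.Perm X}
    (hTm : ∀ i, Measurable (T i).symm) (hT : ∀ i, MeasurePreserving (T i) μ μ)
    (hc : ∀ i j, Commute (T i) (T j)) (V : Fin n → Matrix (Fin d) (Fin k) ℤ)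
    (b : Fin n → Fin d → ℤ)
    (hV : ∀ m : Fin k → ℤ, ∃ q : ℕ, 0 < q ∧
      (q : ℤ) • m ∈ AddSubgroup.closure {v | Simple V v}) {U : Fin s → Fin d' → Equiv.Perm X}
    (hUm : ∀ i l, Measurable (U i l).symm) (hU : ∀ i l, MeasurePreserving (U i l) μ μ)
    (hUc : ∀ i l l', Commute (U i l) (U i l')) (A : Fin s → Matrix (Fin d') (Fin k) ℤ)
    (c : Fin s → Fin d' → ℤ)
    (h1 : ∀ i, ∃ v : Fin k → ℤ, Wm μ (pw (U i) (A i *ᵥ v)))
    (h2 : ∀ i j, ∃ v : Fin k → ℤ, V j *ᵥ v = 0 ∧ Wm μ (pw (U i) (A i *ᵥ v)))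
    (h3 : ∀ i i', i' ≠ i → ∃ v : Fin k → ℤ, A i' *ᵥ v = 0 ∧ Wm μ (pw (U i) (A i *ᵥ v)))
    {f : Fin n → X → ℂ} (hf : ∀ j, MemLp (f j) ∞ μ) {g : Fin s → X → ℂ}
    (hg : ∀ i, MemLp (g i) ∞ μ) :
    ∀ᵐ x ∂μ, ∃ L : ℂ, Tendsto (fun M : Fin k → ℕ => (∏ l, (M l : ℂ))⁻¹ *
      ∑ m ∈ Fintype.piFinset (fun l => Finset.Icc 1 (M l)),
        ∏ j, f j (pw T (V j *ᵥ (fun l => ((m l : ℕ) : ℤ)) + b j) x)) atTop (𝓝 L) ∧
      Tendsto (fun M : Fin k → ℕ => (∏ l, (M l : ℂ))⁻¹ *
      ∑ m ∈ Fintype.piFinset (fun l => Finset.Icc 1 (M l)),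
        (∏ j, f j (pw T (V j *ᵥ (fun l => ((m l : ℕ) : ℤ)) + b j) x)) *
          ∏ i, g i (pw (U i) (A i *ᵥ (fun l => ((m l : ℕ) : ℤ)) + c i) x)) atTop
        (𝓝 ((∏ i, ∫ y, g i y ∂μ) * L)) := by
  have hact : Act μ (pw T) := act_prod hTm hT hc
  have e1 := slots (S := fun j m x => pw T (V j *ᵥ m + b j) x) (fun j m => hact.mp _) hUm hU hUc A c
    h1 (fun i j => by
      obtain ⟨v, hv, hw⟩ := h2 i j
      refine ⟨v, fun m => ?_, hw⟩
      funext x
      rw [Matrix.mulVec_add, hv, add_zero]) h3 hf hg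
  have e2 := simple_conv hTm hT hc V b hV hf
  filter_upwards [e1, e2] with x hx1 hx2
  obtain ⟨L, hL⟩ := hx2
  refine ⟨L, hL, ?_⟩
  have e3 := hx1.add (hL.const_mul (∏ i, ∫ y, g i y ∂μ))
  rw [zero_add] at e3
  refine e3.congr fun M => ?_
  rw [Finset.sum_sub_distrib, ← Finset.mul_sum]
  ring

end Pool.Agent.Helper34.WM
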